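import Pool.Agent.Run7.h104.AC.Defs2

set_option autoImplicit false

namespace Run7.h417.AC

open MeasureTheory Complex Set Filter Topology Metric
open Pool.Agent.Run7.h104.AC

lemma vol_mul (a : ℂ) (s : Set ℂ) :
    volume ((fun z : ℂ => a * z) '' s) = ENNReal.ofReal (‖a‖ ^ 2) * volume s := by
  have h := Measure.addHaar_image_linearMap (volume : Measure ℂ) (Algebra.lmul ℝ ℂ a) s
  have e : (⇑(Algebra.lmul ℝ ℂ a) : ℂ → ℂ) = fun z : ℂ => a * z := by
    funext z
    rfl
  rw [e] at h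
  rw [h, ← Algebra.norm_apply, Algebra.norm_complex_apply, normSq_eq_norm_sq,
    abs_of_nonneg (by positivity)]

theorem t_EXT (hPICK : S_PICK) (hRHO : S_RHO) (hAREA : S_AREA) : S_EXT := by
  intro c hc1 hc2
  have hcp : 0 < 2 - ‖c‖ := by linarith
  set κ : ℝ := 3 / (2 * (2 - ‖c‖)) with hκ
  have hκ1 : 1 ≤ κ := by
    rw [hκ, le_div_iff₀ (by positivity)]
    linarith
  have hκ0 : 0 < κ := by linarith
  obtain ⟨φ, hφd, hφi, hφm, hφ0, hφ1, hφ2⟩ := hPICK κ hκ1
  have hc0 : c ≠ 0 := by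
    intro h
    rw [h] at hc1
    simp at hc1
    linarith
  have hcn : (‖c‖ : ℂ) ≠ 0 := by
    have : ‖c‖ ≠ 0 := by simpa using hc0
    exact_mod_cast this
  set u : ℂ := c / ‖c‖ with hu
  have hun : ‖u‖ = 1 := by
    rw [hu, norm_div, Complex.norm_real, norm_norm]
    exact div_self (by simpa using hc0)
  have hu0 : u ≠ 0 := by
    intro h
    rw [h] at hun
    simp at hun
  set v : ℂ := u⁻¹ with hv
  have hvn : ‖v‖ = 1 := by rw [hv, norm_inv, hun, inv_one]
  have huv : v * u = 1 := inv_mul_cancel₀ hu0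
  have hv0 : v ≠ 0 := inv_ne_zero hu0
  have huc : u * ‖c‖ = c := by
    rw [hu]
    field_simp
  have hκc : (κ : ℂ) ≠ 0 := by exact_mod_cast hκ0.ne'
  have hub : ∀ z : ℂ, z ∈ ball (0 : ℂ) 1 → u * z ∈ ball (0 : ℂ) 1 := by
    intro z hz
    rw [mem_ball_zero_iff] at hz ⊢
    rw [norm_mul, hun, one_mul]
    exact hz
  have h0 : (0 : ℂ) ∈ ball (0 : ℂ) 1 := by simp
  set f : ℂ → ℂ := fun z => v * (κ * Cd (φ (u * z))) with hf
  have hCd : ∀ t : ℂ, HasDerivAt Cd (1 + t) t := by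
    intro t
    have h1 := (hasDerivAt_id t).add (((hasDerivAt_id t).pow 2).div_const (2 : ℂ))
    have e : (1 : ℂ) + ((2 : ℕ) : ℂ) * id t ^ (2 - 1) * 1 / 2 = 1 + t := by
      simp
    rw [e] at h1
    exact h1
  have hmul : ∀ z : ℂ, HasDerivAt (fun z : ℂ => u * z) u z := by
    intro z
    simpa using (hasDerivAt_id z).const_mul u
  have hφder : ∀ z : ℂ, z ∈ ball (0 : ℂ) 1 → HasDerivAt φ (deriv φ z) z := fun z hz =>
    (hφd.differentiableAt (isOpen_ball.mem_nhds hz)).hasDerivAt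
  have hfder : ∀ z : ℂ, z ∈ ball (0 : ℂ) 1 →
      HasDerivAt f (κ * ((1 + φ (u * z)) * deriv φ (u * z))) z := by
    intro z hz
    have h1 := (hφder (u * z) (hub z hz)).comp z (hmul z)
    have h2 := (hCd (φ (u * z))).comp z h1
    have h3 := (h2.const_mul (κ : ℂ)).const_mul v
    have e : v * (κ * ((1 + φ (u * z)) * (deriv φ (u * z) * u)))
        = κ * ((1 + φ (u * z)) * deriv φ (u * z)) := by
      linear_combination (κ * ((1 + φ (u * z)) * deriv φ (u * z))) * huv
    rw [e] at h3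
    exact h3
  have hIsS : IsS f := by
    refine ⟨?_, ?_, ?_, ?_⟩
    · intro z hz
      exact (hfder z hz).differentiableAt.differentiableWithinAt
    · intro x hx y hy hxy
      have h1 : Cd (φ (u * x)) = Cd (φ (u * y)) := by
        have h2 := mul_left_cancel₀ hv0 hxy
        exact mul_left_cancel₀ hκc h2
      have h3 := hRHO.1 (hφm (hub x hx)) (hφm (hub y hy)) h1
      have h4 := hφi (hub x hx) (hub y hy) h3
      exact mul_left_cancel₀ hu0 h4
    · simp [hf, hφ0, Cd]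
    · rw [(hfder 0 h0).deriv, mul_zero, hφ0, hφ1]
      push_cast
      field_simp
      try simp
  refine ⟨f, hIsS, ?_, ?_⟩
  · have hev : deriv f =ᶠ[𝓝 0] fun z => κ * ((1 + φ (u * z)) * deriv φ (u * z)) := by
      filter_upwards [isOpen_ball.mem_nhds h0] with z hz
      exact (hfder z hz).deriv
    unfold a2
    rw [hev.deriv_eq]
    have hφ'd : DifferentiableOn ℂ (deriv φ) (ball 0 1) := hφd.deriv isOpen_ball
    have h1 : HasDerivAt (fun z : ℂ => 1 + φ (u * z)) (deriv φ (u * 0) * u) 0 :=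
      ((hφder (u * 0) (hub 0 h0)).comp (0 : ℂ) (hmul 0)).const_add 1
    have h2 : HasDerivAt (fun z : ℂ => deriv φ (u * z)) (deriv (deriv φ) (u * 0) * u) 0 :=
      ((hφ'd.differentiableAt (isOpen_ball.mem_nhds (hub 0 h0))).hasDerivAt).comp (0 : ℂ) (hmul 0)
    have h3 := ((h1.mul h2).const_mul (κ : ℂ)).deriv
    have e : (fun z => (κ : ℂ) * ((1 + φ (u * z)) * deriv φ (u * z)))
        = fun z => (κ : ℂ) * ((fun z : ℂ => 1 + φ (u * z)) * (fun z : ℂ => deriv φ (u * z))) z := by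
      funext z
      rfl
    rw [e, h3, mul_zero, hφ0, hφ1, hφ2]
    have hκe : (κ : ℂ) * (2 * (2 - ‖c‖)) = 3 := by
      have : κ * (2 * (2 - ‖c‖)) = 3 := by
        rw [hκ]
        field_simp
      exact_mod_cast this
    have : (κ : ℂ) * (((1 / κ : ℝ) : ℂ) * u * ((1 / κ : ℝ) : ℂ)
        + (1 + 0) * (((2 * (2 / κ - 2 / κ ^ 2) : ℝ) : ℂ) * u)) / 2 = u * ‖c‖ := by
      push_cast
      field_simp
      linear_combination hκe
    rw [← huc]
    exact this
  · have hsub : f '' ball (0 : ℂ) 1 ⊆ (fun z : ℂ => (v * κ) * z) '' G := by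
      rintro _ ⟨z, hz, rfl⟩
      refine ⟨Cd (φ (u * z)), ⟨φ (u * z), hφm (hub z hz), rfl⟩, ?_⟩
      simp only [hf]
      ring
    refine (measure_mono hsub).trans ?_
    rw [vol_mul, hAREA.2.1, ← ENNReal.ofReal_mul (by positivity), norm_mul, hvn, one_mul,
      Complex.norm_real, Real.norm_eq_abs, sq_abs]
    apply ENNReal.ofReal_le_ofReal
    apply le_of_eq
    rw [hκ]
    field_simp
    norm_num

end Run7.h417.AC
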