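import Pool.Agent.Run7.h104.AC.Defs2

set_option autoImplicit false

namespace Run7.h417.AC

open MeasureTheory Complex Set Filter Topology Metric
open Pool.Agent.Run7.h104.AC

theorem t_FIN2 (hRED : S_RED) (hEXT : S_EXT) : S_FIN2 := by
  have key : ∀ f : ℂ → ℂ, IsS f → ‖a2 f‖ < 2 →
      ENNReal.ofReal (27 * Real.pi / (8 * (2 - ‖a2 f‖) ^ 2)) ≤ volume (f '' ball (0 : ℂ) 1) := by
    intro f hf h2
    by_cases htop : volume (f '' ball (0 : ℂ) 1) = ⊤
    · rw [htop]
      exact le_top
    · obtain ⟨_, h⟩ := hRED f hf htop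
      rw [ENNReal.ofReal_le_iff_le_toReal htop]
      have hp : 0 < (2 - ‖a2 f‖) ^ 2 := by
        have : 0 < 2 - ‖a2 f‖ := by linarith
        positivity
      rw [div_le_iff₀ (by positivity)]
      nlinarith
  refine ⟨?_, ?_⟩
  · intro c hc1 hc2
    refine ⟨?_, ?_⟩
    · obtain ⟨f, hf, hfc, hv⟩ := hEXT c hc1 hc2
      refine ⟨f, hf, hfc, le_antisymm ?_ hv⟩
      have := key f hf (by rw [hfc]; exact hc2)
      rw [hfc] at this
      exact this
    · rintro A ⟨f, hf, hfc, rfl⟩
      have := key f hf (by rw [hfc]; exact hc2)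
      rw [hfc] at this
      exact this
  · intro f hf h2
    by_contra htop
    have := (hRED f hf htop).1
    linarith

end Run7.h417.AC
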