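import Pool.Agent.Run7.h104.AC.Defs2

set_option autoImplicit false

namespace Run7.h417.AC

open MeasureTheory Complex Set Filter Topology Metric
open Pool.Agent.Run7.h104.AC

noncomputable section

/-- the half plane coordinate -/
def mm (z : ℂ) : ℂ := (1 + z) / (1 - z)

/-- the square of the new half plane coordinate -/
def TT (a : ℝ) (z : ℂ) : ℂ := (1 - a) + a * mm z ^ 2

def SS (a : ℝ) (z : ℂ) : ℂ := TT a z ^ ((2 : ℂ)⁻¹)

def phi (a : ℝ) (z : ℂ) : ℂ := (SS a z - 1) / (SS a z + 1)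

lemma one_sub_ne {z : ℂ} (hz : z ∈ ball (0 : ℂ) 1) : (1 : ℂ) - z ≠ 0 := by
  intro h
  have h1 : z = 1 := (sub_eq_zero.mp h).symm
  rw [h1] at hz
  simp at hz

lemma mm_re {z : ℂ} (hz : z ∈ ball (0 : ℂ) 1) : 0 < (mm z).re := by
  have h1 := one_sub_ne hz
  have h2 : 0 < normSq (1 - z) := normSq_pos.mpr h1
  have hz' : ‖z‖ < 1 := by simpa using hz
  have h3 : normSq z < 1 := by
    rw [normSq_eq_norm_sq]
    nlinarith [norm_nonneg z]
  have h4 : (mm z).re = (1 - normSq z) / normSq (1 - z) := by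
    unfold mm
    rw [Complex.div_re]
    have : (1 + z).re * (1 - z).re / normSq (1 - z) + (1 + z).im * (1 - z).im / normSq (1 - z)
      = ((1 + z).re * (1 - z).re + (1 + z).im * (1 - z).im) / normSq (1 - z) := by ring
    rw [this]
    congr 1
    simp [normSq_apply]
    ring
  rw [h4]
  exact div_pos (by linarith) h2

lemma sq_slit {m : ℂ} (hm : 0 < m.re) : m ^ 2 ∈ slitPlane := by
  rw [mem_slitPlane_iff]
  by_cases h : m.im = 0
  · left
    have : (m ^ 2).re = m.re * m.re - m.im * m.im := by rw [pow_two, mul_re]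
    rw [this, h]
    nlinarith
  · right
    have : (m ^ 2).im = m.re * m.im + m.im * m.re := by rw [pow_two, mul_im]
    rw [this]
    intro h0
    have : m.re * m.im = 0 := by linarith
    rcases mul_eq_zero.mp this with h1 | h1
    · linarith
    · exact h h1

lemma TT_slit {a : ℝ} (ha : 0 < a) (ha1 : a ≤ 1) {z : ℂ} (hz : z ∈ ball (0 : ℂ) 1) :
    TT a z ∈ slitPlane := by
  have h := sq_slit (mm_re hz)
  rw [mem_slitPlane_iff] at h ⊢
  have hre : (TT a z).re = (1 - a) + a * (mm z ^ 2).re := by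
    simp [TT]
  have him : (TT a z).im = a * (mm z ^ 2).im := by
    simp [TT]
  rw [hre, him]
  rcases h with h | h
  · left
    have := mul_pos ha h
    linarith
  · right
    exact mul_ne_zero ha.ne' h

lemma sqrt_re_pos {w : ℂ} (hw : w ∈ slitPlane) : 0 < (w ^ ((2 : ℂ)⁻¹)).re := by
  rw [Complex.cpow_inv_two_re]
  apply Real.sqrt_pos.mpr
  have h1 : -w.re < ‖w‖ := by
    rw [mem_slitPlane_iff] at hw
    rcases hw with h | h
    · have := norm_nonneg w
      linarith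
    · have h2 := Complex.abs_re_lt_norm.mpr h
      have h3 := neg_abs_le w.re
      linarith
  linarith

lemma sqrt_sq (w : ℂ) : (w ^ ((2 : ℂ)⁻¹)) ^ 2 = w := by
  have := Complex.cpow_nat_inv_pow w (n := 2) (by norm_num)
  simpa using this

lemma SS_re {a : ℝ} (ha : 0 < a) (ha1 : a ≤ 1) {z : ℂ} (hz : z ∈ ball (0 : ℂ) 1) :
    0 < (SS a z).re := sqrt_re_pos (TT_slit ha ha1 hz)

lemma SS_sq (a : ℝ) (z : ℂ) : SS a z ^ 2 = TT a z := sqrt_sq _

lemma ne_of_re {s : ℂ} (hs : 0 < s.re) : s ≠ 0 := by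
  intro h
  rw [h] at hs
  simp at hs

lemma add_one_ne {s : ℂ} (hs : 0 < s.re) : s + 1 ≠ 0 := by
  apply ne_of_re
  simp
  linarith

lemma mm_der {z : ℂ} (hz : z ∈ ball (0 : ℂ) 1) : HasDerivAt mm (2 / (1 - z) ^ 2) z := by
  have h1 := one_sub_ne hz
  have h2 : HasDerivAt (fun z : ℂ => 1 + z) 1 z := by
    simpa using (hasDerivAt_id z).const_add (1 : ℂ)
  have h3 : HasDerivAt (fun z : ℂ => 1 - z) (-1) z := by
    simpa using (hasDerivAt_id z).const_sub (1 : ℂ)
  have h4 := h2.div h3 h1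
  have e : (1 * (1 - z) - (1 + z) * -1) / (1 - z) ^ 2 = 2 / (1 - z) ^ 2 := by
    congr 1
    ring
  rw [e] at h4
  exact h4

lemma TT_der (a : ℝ) {z : ℂ} (hz : z ∈ ball (0 : ℂ) 1) :
    HasDerivAt (TT a) (a * (2 * mm z * (2 / (1 - z) ^ 2))) z := by
  have h := ((mm_der hz).pow 2).const_mul (a : ℂ)
  have h2 := h.const_add ((1 : ℂ) - a)
  have e : (a : ℂ) * (((2 : ℕ) : ℂ) * mm z ^ (2 - 1) * (2 / (1 - z) ^ 2))
      = a * (2 * mm z * (2 / (1 - z) ^ 2)) := by
    norm_num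
  rw [e] at h2
  exact h2

lemma SS_der {a : ℝ} (ha : 0 < a) (ha1 : a ≤ 1) {z : ℂ} (hz : z ∈ ball (0 : ℂ) 1) :
    HasDerivAt (SS a) (2 * a * (1 + z) / ((1 - z) ^ 3 * SS a z)) z := by
  have h1 := one_sub_ne hz
  have hs := TT_slit ha ha1 hz
  have hS := ne_of_re (SS_re ha ha1 hz)
  have h := (TT_der a hz).cpow_const (c := (2 : ℂ)⁻¹) hs
  have hT : TT a z ≠ 0 := slitPlane_ne_zero hs
  have e : (2 : ℂ)⁻¹ * TT a z ^ ((2 : ℂ)⁻¹ - 1) * (a * (2 * mm z * (2 / (1 - z) ^ 2)))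
      = 2 * a * (1 + z) / ((1 - z) ^ 3 * SS a z) := by
    have e1 : TT a z ^ ((2 : ℂ)⁻¹ - 1) = SS a z / TT a z := by
      rw [Complex.cpow_sub _ _ hT, Complex.cpow_one]
      rfl
    rw [e1, ← SS_sq a z]
    unfold mm
    field_simp
    try ring
  rw [e] at h
  exact h

lemma phi_der {a : ℝ} (ha : 0 < a) (ha1 : a ≤ 1) {z : ℂ} (hz : z ∈ ball (0 : ℂ) 1) :
    HasDerivAt (phi a) (4 * a * (1 + z) / ((1 - z) ^ 3 * SS a z * (SS a z + 1) ^ 2)) z := by
  have h1 := one_sub_ne hz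
  have hS := ne_of_re (SS_re ha ha1 hz)
  have hS1 := add_one_ne (SS_re ha ha1 hz)
  have h := ((SS_der ha ha1 hz).sub_const 1).div ((SS_der ha ha1 hz).add_const 1) hS1
  have e : (2 * a * (1 + z) / ((1 - z) ^ 3 * SS a z) * (SS a z + 1)
      - (SS a z - 1) * (2 * a * (1 + z) / ((1 - z) ^ 3 * SS a z))) / (SS a z + 1) ^ 2
      = 4 * a * (1 + z) / ((1 - z) ^ 3 * SS a z * (SS a z + 1) ^ 2) := by
    field_simp
    ring
  rw [e] at h
  exact h

lemma norm_sub_lt {s : ℂ} (hs : 0 < s.re) : ‖s - 1‖ < ‖s + 1‖ := by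
  have h : normSq (s - 1) < normSq (s + 1) := by
    simp only [normSq_apply, sub_re, sub_im, add_re, add_im, one_re, one_im]
    nlinarith
  rw [normSq_eq_norm_sq, normSq_eq_norm_sq] at h
  exact lt_of_pow_lt_pow_left₀ 2 (norm_nonneg _) h

lemma SS_zero (a : ℝ) : SS a 0 = 1 := by
  have : TT a 0 = 1 := by simp [TT, mm]
  rw [SS, this]
  simp

lemma phi_inj {a : ℝ} (ha : 0 < a) (ha1 : a ≤ 1) : InjOn (phi a) (ball 0 1) := by
  intro x hx y hy hxy
  have hX := add_one_ne (SS_re ha ha1 hx)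
  have hY := add_one_ne (SS_re ha ha1 hy)
  have h1 : SS a x = SS a y := by
    unfold phi at hxy
    rw [div_eq_div_iff hX hY] at hxy
    linear_combination hxy / 2
  have h2 : TT a x = TT a y := by rw [← SS_sq, ← SS_sq, h1]
  have ha0 : (a : ℂ) ≠ 0 := by exact_mod_cast ha.ne'
  have h3 : mm x ^ 2 = mm y ^ 2 := by
    unfold TT at h2
    have : (a : ℂ) * mm x ^ 2 = a * mm y ^ 2 := by linear_combination h2
    exact mul_left_cancel₀ ha0 this
  have h4 : mm x = mm y := by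
    rcases sq_eq_sq_iff_eq_or_eq_neg.mp h3 with h | h
    · exact h
    · exfalso
      have h5 := mm_re hx
      have h6 := mm_re hy
      rw [h, neg_re] at h5
      linarith
  have h7 := one_sub_ne hx
  have h8 := one_sub_ne hy
  unfold mm at h4
  rw [div_eq_div_iff h7 h8] at h4
  linear_combination h4 / 2

theorem t_PICK : S_PICK := by
  intro κ hκ
  have hκ0 : 0 < κ := by linarith
  set a : ℝ := 1 / κ with ha_def
  have ha : 0 < a := by positivity
  have ha1 : a ≤ 1 := by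
    rw [ha_def, div_le_one hκ0]
    exact hκ
  have h0 : (0 : ℂ) ∈ ball (0 : ℂ) 1 := by simp
  refine ⟨phi a, ?_, phi_inj ha ha1, ?_, ?_, ?_, ?_⟩
  · intro z hz
    exact (phi_der ha ha1 hz).differentiableAt.differentiableWithinAt
  · intro z hz
    have hs := SS_re ha ha1 hz
    have h1 := norm_sub_lt hs
    have h2 : 0 < ‖SS a z + 1‖ := norm_pos_iff.mpr (add_one_ne hs)
    rw [mem_ball_zero_iff]
    unfold phi
    rw [norm_div, div_lt_one h2]
    exact h1
  · simp [phi, SS_zero]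
  · rw [(phi_der ha ha1 h0).deriv, SS_zero]
    norm_num
  · have hev : deriv (phi a) =ᶠ[𝓝 0]
        fun z => 4 * a * (1 + z) / ((1 - z) ^ 3 * SS a z * (SS a z + 1) ^ 2) := by
      filter_upwards [isOpen_ball.mem_nhds h0] with z hz
      exact (phi_der ha ha1 hz).deriv
    rw [hev.deriv_eq]
    have hS := SS_der ha ha1 h0
    have hN : HasDerivAt (fun z : ℂ => 4 * (a : ℂ) * (1 + z)) (4 * a * 1) 0 := by
      have h2 : HasDerivAt (fun z : ℂ => 1 + z) 1 0 := by
        simpa using (hasDerivAt_id (0 : ℂ)).const_add (1 : ℂ)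
      exact h2.const_mul _
    have h3 : HasDerivAt (fun z : ℂ => 1 - z) (-1) 0 := by
      simpa using (hasDerivAt_id (0 : ℂ)).const_sub (1 : ℂ)
    have hD := ((h3.pow 3).mul hS).mul ((hS.add_const 1).pow 2)
    have hne : ((fun z : ℂ => (1 - z)) ^ 3 * SS a * (fun z => SS a z + 1) ^ 2) 0 ≠ 0 := by
      simp [SS_zero]
    have h := hN.div hD hne
    have h' := h.deriv
    have e : (fun z => 4 * (a : ℂ) * (1 + z) / ((1 - z) ^ 3 * SS a z * (SS a z + 1) ^ 2))
      = ((fun z : ℂ => 4 * (a : ℂ) * (1 + z)) / ((fun z : ℂ => (1 - z)) ^ 3 * SS a * (fun z => SS a z + 1) ^ 2)) := by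
      funext z
      rfl
    rw [e, h']
    have e2 : ((2 * (2 / κ - 2 / κ ^ 2) : ℝ) : ℂ) = 4 * a - 4 * a ^ 2 := by
      rw [ha_def]
      push_cast
      field_simp
      ring
    rw [e2]
    simp [SS_zero]
    ring

end

end Run7.h417.AC
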